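import Pool.Agent.Q194.Lip.Kill

/-!
# Finitely generated groups of `C^{k,Lip}` diffeomorphisms which are not groups of `C^{k+1}` diffeomorphisms

Full (positive) answer to question Q1 of problem MP_02cf79_al, for `M = I`, for `M = S^1` and for every
`k ≥ 1`. The definitions `DiffI`, `DiffS` (and `ext01`, `IsLift`) are in
`Pool/Agent/W331/CR/Defs.lean`; `LipI` and `LipS` are in `Pool/Agent/W331/CR/Stm2.lean`.
-/

set_option autoImplicit false

namespace Pool.Agent.Results.MP_02cf79_al.LipNotNextSmooth

open Set Function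
open scoped ContDiff
open Pool.Agent.W331.CR

/-- For every `k ≥ 1` there is a finitely generated group `G` with an element `z ≠ 1` such that `G` is
isomorphic to a group of orientation preserving `C^{k,Lip}` diffeomorphisms of `[0,1]` and to one of the
circle, while every homomorphism from `G` to the group of the orientation preserving `C^{k+1}`
diffeomorphisms of `[0,1]` or of the circle sends `z` to `1`; in particular `G` embeds into neither. -/
theorem result : ∀ k : ℕ, 1 ≤ k → ∃ (G : Type) (_ : Group G) (z : G), Group.FG G ∧ z ≠ 1 ∧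
    (∃ φ : G →* (Icc (0:ℝ) 1 ≃o Icc (0:ℝ) 1), Injective φ ∧ ∀ g, φ g ∈ LipI k) ∧
    (∃ φ : G →* Equiv.Perm (AddCircle (1:ℝ)), Injective φ ∧ ∀ g, φ g ∈ LipS k) ∧
    (∀ φ : G →* DiffI (k + 1 : ℕ), φ z = 1) ∧ (∀ φ : G →* DiffS (k + 1 : ℕ), φ z = 1) :=
  fun k hk => Pool.Agent.Q194.Lip.main k hk

end Pool.Agent.Results.MP_02cf79_al.LipNotNextSmooth
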